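import Pool.Agent.H.MP_8741c9_al.I

namespace Pool.Agent.H.MP_0a5ef7_al

section
open Polynomial

noncomputable abbrev pX : Ideal ℂ[X] := Ideal.span {X}

instance : pX.IsPrime := (Ideal.span_singleton_prime X_ne_zero).mpr prime_X

abbrev O : Type := Localization.AtPrime pX

lemma mem_pc {p : ℂ[X]} : p ∈ pX.primeCompl ↔ p.eval 0 ≠ 0 := by
  simp [Ideal.mem_span_singleton, X_dvd_iff, coeff_zero_eq_eval_zero]

noncomputable def ev : O →+* ℂ :=
  IsLocalization.lift (M := pX.primeCompl) (g := evalRingHom 0) fun y => (mem_pc.mp y.2).isUnit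

lemma ev_alg (p : ℂ[X]) : ev (algebraMap _ _ p) = p.eval 0 := IsLocalization.lift_eq _ _

noncomputable def u0 : O := algebraMap ℂ[X] O X

lemma O_frac (a : O) : ∃ p q : ℂ[X], q.eval 0 ≠ 0 ∧ IsUnit (algebraMap _ O q) ∧
    a * algebraMap _ O q = algebraMap _ O p := by
  obtain ⟨⟨p, q⟩, h⟩ := IsLocalization.surj pX.primeCompl a
  exact ⟨p, q, mem_pc.mp q.2, IsLocalization.map_units O q, h⟩

lemma O_inj : Function.Injective (algebraMap ℂ[X] O) :=
  IsLocalization.injective O pX.primeCompl_le_nonZeroDivisors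

lemma O_ker (a : O) (h : ev a = 0) : u0 ∣ a := by
  obtain ⟨p, q, hq, hu, e⟩ := O_frac a
  have := congrArg ev e
  rw [map_mul, h, zero_mul, ev_alg] at this
  rw [← hu.dvd_mul_right, e]
  exact map_dvd _ (by rw [X_dvd_iff, coeff_zero_eq_eval_zero, ← this])

lemma O_unit (a : O) (h : IsUnit (ev a)) : IsUnit a := by
  obtain ⟨p, q, hq, hu, e⟩ := O_frac a
  have := congrArg ev e
  rw [map_mul, ev_alg, ev_alg] at this
  exact isUnit_of_mul_isUnit_left (e ▸ IsLocalization.map_units O
    ⟨p, mem_pc.mpr (this ▸ mul_ne_zero h.ne_zero hq)⟩)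

lemma O_dvd (a : O) (h : a ≠ 0) : ∃ n : ℕ, a ∣ u0 ^ n := by
  obtain ⟨p, q, hq, hu, e⟩ := O_frac a
  have hp : p ≠ 0 := by
    rintro rfl
    exact mul_ne_zero h hu.ne_zero (e.trans (map_zero _))
  obtain ⟨n, p', hp', rfl⟩ := WfDvdMonoid.max_power_factor hp irreducible_X
  have hu' : IsUnit (algebraMap _ O p') := IsLocalization.map_units O (M := pX.primeCompl)
    ⟨p', fun h => hp' (Ideal.mem_span_singleton.mp h)⟩
  refine ⟨n, hu'.dvd_mul_right.mp ⟨algebraMap _ O q, ?_⟩⟩
  rw [e, map_mul, map_pow, u0]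

lemma polyC_aniso (a b : ℂ[X]) (h : a * (a + b) = X * (b * b)) : b = 0 := by
  by_contra hb
  have h0 : a * (a + b) ≠ 0 := h ▸ mul_ne_zero X_ne_zero (mul_ne_zero hb hb)
  have hd := congrArg natDegree h
  rw [natDegree_mul (left_ne_zero_of_mul h0) (right_ne_zero_of_mul h0),
    natDegree_mul X_ne_zero (mul_ne_zero hb hb), natDegree_mul hb hb, natDegree_X] at hd
  by_cases hlt : b.natDegree < a.natDegree
  · rw [natDegree_add_eq_left_of_natDegree_lt hlt] at hd
    omega
  · have := natDegree_add_le a b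
    omega

lemma O_aniso (a b : O) (h : a * (a + b) = u0 * (b * b)) : a = 0 ∧ b = 0 := by
  obtain ⟨p, q, -, hu, e⟩ := O_frac a
  obtain ⟨p', q', -, hu', e'⟩ := O_frac b
  have := polyC_aniso (p * q') (p' * q) (O_inj (by
    simp only [map_mul, map_add, ← e, ← e']
    change _ = u0 * _
    linear_combination (algebraMap ℂ[X] O q * algebraMap ℂ[X] O q') ^ 2 * h))
  have hb : b = 0 := by
    have h2 := congrArg (algebraMap ℂ[X] O) this
    rw [map_mul, ← e', map_zero] at h2
    simpa [hu.ne_zero, hu'.ne_zero] using h2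
  exact ⟨by simpa [hb] using h, hb⟩

lemma exists_trC : ∃ σ : PowerSeries ℂ, PowerSeries.X ∣ σ ∧
    ∀ p : ℂ[X][X], p.eval₂ coeToPowerSeries.ringHom σ = 0 → p = 0 := by
  obtain ⟨σ, h1, h2⟩ := MP_8741c9_al.exists_tr
  refine ⟨σ.map (algebraMap ℚ ℂ), by simpa using map_dvd (PowerSeries.map (algebraMap ℚ ℂ)) h1,
    fun p hp => ?_⟩
  ext n m
  refine (Module.forall_dual_apply_eq_zero_iff ℚ _).mp fun l => ?_
  let F : PowerSeries ℂ →+ PowerSeries ℚ :=
    { toFun := fun f => PowerSeries.mk fun i => l (PowerSeries.coeff i f)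
      map_zero' := by ext; simp
      map_add' := fun f g => by ext; simp }
  have hF : ∀ (f : PowerSeries ℂ) (g : PowerSeries ℚ),
      F (f * g.map (algebraMap ℚ ℂ)) = F f * g := fun f g => by
    ext i
    simp only [F, AddMonoidHom.coe_mk, ZeroHom.coe_mk, PowerSeries.coeff_mk, PowerSeries.coeff_mul,
      map_sum, PowerSeries.coeff_map]
    refine Finset.sum_congr rfl fun ij _ => ?_
    rw [mul_comm, ← Algebra.smul_def, map_smul, smul_eq_mul, mul_comm]
  let G : ℂ[X] → ℚ[X] := fun q => q.sum fun i a => monomial i (l a)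
  have hG : ∀ q i, (G q).coeff i = l (q.coeff i) := fun q i => by
    simp only [G, finset_sum_coeff, coeff_monomial, Polynomial.sum, Finset.sum_ite_eq',
      mem_support_iff]
    split_ifs with h
    · rfl
    · simp [not_not.mp h]
  have hGF : ∀ q : ℂ[X], ((G q : ℚ[X]) : PowerSeries ℚ) = F q := fun q => by
    ext i
    simp [F, hG]
  have := h2 (p.sum fun i a => monomial i (G a)) (by
    have := congrArg F hp
    rw [eval₂_eq_sum, Polynomial.sum, map_sum, map_zero] at this
    rw [Polynomial.sum, eval₂_finset_sum, ← this]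
    refine Finset.sum_congr rfl fun i _ => ?_
    rw [eval₂_monomial, ← map_pow, coeToPowerSeries.ringHom_apply, coeToPowerSeries.ringHom_apply,
      hF, hGF])
  have h3 := congrArg (fun q => (coeff q n).coeff m) this
  simp only [coeff_sum, coeff_monomial, Polynomial.sum, finset_sum_coeff, Finset.sum_ite_eq',
    mem_support_iff] at h3
  split_ifs at h3 with h
  · simpa [hG] using h3
  · simp [not_not.mp h]

end

open MP_8741c9_al (Data Nag)
open PowerSeries

abbrev L : Type := PowerSeries O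
abbrev VV : Type := PowerSeries ℂ
noncomputable abbrev uL : L := C u0
abbrev TT : Type := QuadraticAlgebra L uL 1

noncomputable def eL : L →+* VV := PowerSeries.map ev
noncomputable def iL : VV →+* L := PowerSeries.map (algebraMap ℂ O)

lemma ev_u0 : ev u0 = 0 := by simp [u0, ev_alg]
lemma eL_u : eL uL = 0 := by simp [eL, ev_u0]
lemma eL_iL (a : VV) : eL (iL a) = a := by
  ext n
  simp [eL, iL, IsScalarTower.algebraMap_apply ℂ (Polynomial ℂ) O, ev_alg]
lemma iL_X : iL X = X := by simp [iL]

lemma L_ker (a : L) (h : eL a = 0) : uL ∣ a := by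
  choose c hc using fun n => O_ker (coeff n a) (by simpa [eL] using congrArg (coeff n) h)
  exact ⟨PowerSeries.mk c, by ext n; simp [hc]⟩

lemma L_unit (a : L) (h : IsUnit (eL a)) : IsUnit a := by
  rw [isUnit_iff_constantCoeff] at h ⊢
  exact O_unit _ h

noncomputable def E0 : TT →+* VV where
  toFun x := eL x.re
  map_one' := map_one eL
  map_mul' x y := by simp [eL_u]
  map_zero' := by simp
  map_add' x y := by simp

noncomputable def E1 : TT →+* VV where
  toFun x := eL x.re + eL x.im
  map_one' := by rw [QuadraticAlgebra.re_one, QuadraticAlgebra.im_one]; simp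
  map_mul' x y := by simp [eL_u]; ring
  map_zero' := by simp
  map_add' x y := by simp; ring

lemma E0_apply (x : TT) : E0 x = eL x.re := rfl
lemma E1_apply (x : TT) : E1 x = eL x.re + eL x.im := rfl

lemma norm_dvd (x : TT) (h : X ∣ x.norm) : algebraMap L TT X ∣ x := by
  rw [X_dvd_iff, QuadraticAlgebra.norm_def] at h
  simp only [map_sub, map_add, map_mul, map_one, constantCoeff_C] at h
  obtain ⟨h1, h2⟩ := O_aniso (constantCoeff x.re) (constantCoeff x.im) (by linear_combination h)
  rw [QuadraticAlgebra.algebraMap_dvd_iff, X_dvd_iff, X_dvd_iff]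
  exact ⟨h1, h2⟩

lemma norm_zero (x : TT) (h : x.norm = 0) : x = 0 := by
  have key : ∀ (n : ℕ) (x : TT), x.norm = 0 → algebraMap L TT (X ^ n) ∣ x := by
    intro n
    induction n with
    | zero => simp
    | succ n ih =>
      intro x hx
      obtain ⟨y, rfl⟩ := norm_dvd x (hx ▸ dvd_zero _)
      rw [map_mul, QuadraticAlgebra.norm_algebraMap, mul_eq_zero] at hx
      rw [pow_succ', map_mul]
      exact mul_dvd_mul_left _ (ih y (hx.resolve_left (pow_ne_zero _ X_ne_zero)))
  ext n
  · exact X_pow_dvd_iff.mp (QuadraticAlgebra.algebraMap_dvd_iff.mp (key (n + 1) x h)).1 n (by omega)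
  · exact X_pow_dvd_iff.mp (QuadraticAlgebra.algebraMap_dvd_iff.mp (key (n + 1) x h)).2 n (by omega)

instance : NoZeroDivisors TT := ⟨fun {x y} h => by
  have := congrArg QuadraticAlgebra.norm h
  rw [map_mul, QuadraticAlgebra.norm_zero, mul_eq_zero] at this
  exact this.imp (norm_zero x) (norm_zero y)⟩

instance : IsDomain TT := NoZeroDivisors.to_isDomain _

instance : IsNoetherianRing TT := .of_finite L TT

lemma u0_ne : u0 ≠ 0 := fun h => Polynomial.X_ne_zero (O_inj (h.trans (map_zero _).symm))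

noncomputable def DD : Data TT VV where
  u := algebraMap L TT uL
  s := QuadraticAlgebra.omega
  w := X
  e0 := E0
  e1 := E1
  ι := (algebraMap L TT).comp iL
  hs := by ext1 <;> simp
  e0s := by simp [E0_apply]
  e1s := by simp [E1_apply]
  e0i a := by simp [E0_apply, eL_iL]
  e1i a := by simp [E1_apply, eL_iL]
  ker x h0 h1 := by
    rw [E1_apply, ← E0_apply, h0, zero_add] at h1
    exact QuadraticAlgebra.algebraMap_dvd_iff.mpr ⟨L_ker _ h0, L_ker _ h1⟩
  unit x h0 h1 := by
    rw [QuadraticAlgebra.isUnit_iff_norm_isUnit]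
    refine L_unit _ ?_
    convert h0.mul h1 using 1
    simp [QuadraticAlgebra.norm_def, E0_apply, E1_apply, eL_u]
    ring
  hw := X_irreducible
  pz := by
    rw [RingHom.comp_apply, iL_X]
    refine ⟨by simp, fun h => ?_, fun a b h => ?_⟩
    · rw [QuadraticAlgebra.isUnit_iff_norm_isUnit, QuadraticAlgebra.norm_algebraMap] at h
      exact X_prime.not_unit ((isUnit_pow_iff (by omega)).mp h)
    · have := map_dvd QuadraticAlgebra.norm h
      rw [QuadraticAlgebra.norm_algebraMap, map_mul] at this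
      exact (X_prime.dvd_or_dvd ((dvd_pow_self _ two_ne_zero).trans this)).imp (norm_dvd a)
        (norm_dvd b)
  zu := by
    rw [RingHom.comp_apply, iL_X, QuadraticAlgebra.algebraMap_dvd_iff_dvd, X_dvd_iff]
    simpa using u0_ne
  dv x hx := by
    rw [RingHom.comp_apply, iL_X] at hx ⊢
    obtain ⟨n, y, hy⟩ := O_dvd (constantCoeff x.norm) fun h => hx (norm_dvd x (X_dvd_iff.mpr h))
    obtain ⟨q, hq⟩ : ∃ q, x.norm = X * q + C (constantCoeff x.norm) :=
      ⟨_, x.norm.eq_X_mul_shift_add_const⟩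
    refine ⟨n, star x * algebraMap L TT (C y), -algebraMap L TT (q * C y), ?_⟩
    rw [← mul_assoc, ← QuadraticAlgebra.algebraMap_norm_eq_mul_star, ← map_pow, ← map_pow, hy,
      ← map_neg, ← map_mul (algebraMap L TT), ← map_mul (algebraMap L TT), ← map_add, map_mul C]
    congr 1
    linear_combination -(C y) * hq

instance : IsNoetherianRing DD.S := by
  let : Algebra L DD.S := ((algebraMap L TT).codRestrict DD.S fun a => by
    simp [Data.mem_S, DD, E0_apply, E1_apply]).toAlgebra
  let f : DD.S →ₗ[L] TT :=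
    { toFun := Subtype.val
      map_add' := fun _ _ => rfl
      map_smul' := fun a x => (Algebra.smul_def a (x : TT)).symm }
  have := Module.Finite.of_injective f Subtype.val_injective
  exact .of_finite L DD.S

lemma exists_N : ∃ N : Nag (Polynomial (Polynomial (Polynomial ℂ))) DD.S,
    N.z = DD.zS ∧ (∃ uB : N.B, (uB : DD.S) = DD.uS) ∧ ∃ vB : N.B, DD.zS ∣ vB - DD.vS := by
  obtain ⟨σ, h1, h2⟩ := exists_trC
  refine DD.exists_nag Polynomial.coeToPowerSeries.ringHom Polynomial.X σ (by simp [DD]) h1 h2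
    (fun c => ⟨Polynomial.C (constantCoeff c), X_dvd_iff.mpr (by simp)⟩) fun x => ?_
  have key : ∀ p : Polynomial ℂ, (p.map Polynomial.C).eval₂
      (DD.ι.comp Polynomial.coeToPowerSeries.ringHom) DD.u =
      algebraMap L TT (C (algebraMap (Polynomial ℂ) O p)) := by
    intro p
    rw [Polynomial.eval₂_map]
    refine RingHom.congr_fun (f := Polynomial.eval₂RingHom _ _)
      (g := (algebraMap L TT).comp (C.comp (algebraMap (Polynomial ℂ) O)))
      (Polynomial.ringHom_ext (fun a => ?_) ?_) p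
    · simp [DD, iL, IsScalarTower.algebraMap_apply ℂ (Polynomial ℂ) O]
    · simp [DD, u0, uL]
  obtain ⟨p, q, -, hu, e⟩ := O_frac (constantCoeff x.re)
  obtain ⟨p', q', -, hu', e'⟩ := O_frac (constantCoeff x.im)
  refine ⟨(p * q').map Polynomial.C, (p' * q).map Polynomial.C, (q * q').map Polynomial.C, ?_, ?_⟩
  · rw [key, map_mul]
    exact ((hu.mul hu').map _).map _
  · rw [key, key, key]
    change algebraMap L TT (iL X) ∣ _ - _ - _ * QuadraticAlgebra.omega
    rw [iL_X, QuadraticAlgebra.algebraMap_dvd_iff, X_dvd_iff, X_dvd_iff]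
    simp [← e, ← e']
    constructor <;> ring

end Pool.Agent.H.MP_0a5ef7_al
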