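import Pool.Agent.H.MP_8741c9_al.E

set_option linter.unusedSectionVars false

namespace Pool.Agent.H.MP_8741c9_al

open IsLocalRing RingTheory.Sequence

namespace Data

variable {T V : Type} [CommRing T] [IsDomain T] [CommRing V] [IsDomain V]
  [IsDiscreteValuationRing V] (D : Data T V)

def tt : Option (ℕ × ℕ) → T
  | none => 0
  | some (i, j) => D.z ^ i * (1 - D.s) + D.z ^ j * D.s

/-- The rank one modules `S t + u T`. -/
def Nt (i : Option (ℕ × ℕ)) : Submodule D.S T where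
  carrier := {x | ∃ (a : D.S) (t : T), x = a * D.tt i + D.u * t}
  add_mem' := by
    rintro _ _ ⟨a, t, rfl⟩ ⟨a', t', rfl⟩
    exact ⟨a + a', t + t', by push_cast; ring⟩
  zero_mem' := ⟨0, 0, by simp⟩
  smul_mem' := by
    rintro c _ ⟨a, t, rfl⟩
    exact ⟨c * a, c * t, by simp only [Subring.smul_def, smul_eq_mul]; push_cast; ring⟩

lemma normal (t : T) (h0 : D.e0 t = 0 → D.e1 t = 0) (h1 : D.e1 t = 0 → D.e0 t = 0) :
    ∃ (i : Option (ℕ × ℕ)) (τ : T), IsUnit τ ∧ ∃ t1, τ * t = D.tt i + D.u * t1 := by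
  by_cases h : D.e0 t = 0
  · obtain ⟨t1, ht⟩ := D.ker t h (h0 h)
    exact ⟨none, 1, isUnit_one, t1, by simp [tt, ht]⟩
  obtain ⟨i, c, hc⟩ := IsDiscreteValuationRing.associated_pow_irreducible h D.hw
  obtain ⟨j, c', hc'⟩ := IsDiscreteValuationRing.associated_pow_irreducible (mt h1 h) D.hw
  refine ⟨some (i, j), D.ι c + (D.ι c' - D.ι c) * D.s,
    D.unit _ (by simp [D.e0i, D.e0s]) (by simp [D.e1i, D.e1s]), ?_⟩
  obtain ⟨t1, ht⟩ := D.ker ((D.ι c + (D.ι c' - D.ι c) * D.s) * t - D.tt (some (i, j)))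
    (by simp [tt, D.e0i, D.e0s, ← hc, mul_comm]) (by simp [tt, D.e1i, D.e1s, ← hc', mul_comm])
  exact ⟨t1, by rw [← ht]; ring⟩

lemma lattice2 {r : ℕ} (N : Submodule D.S (Fin r → T)) (hu : ∀ y, D.u • y ∈ N)
    (h0 : ∀ y ∈ N, D.e0 ∘ y = 0 → D.e1 ∘ y = 0) (h1 : ∀ y ∈ N, D.e1 ∘ y = 0 → D.e0 ∘ y = 0)
    (hs : ∀ y, D.z • y ∈ N → y ∈ N)
    (hi : ∀ e : N →ₗ[D.S] N, e ∘ₗ e = e → e = 0 ∨ e = LinearMap.id) :
    Subsingleton N ∨ ∃ i, Nonempty (N ≃ₗ[D.S] D.Nt i) := by
  classical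
  rcases r with _ | r
  · exact .inl inferInstance
  have hk : ∀ y y', y' ∈ N → D.e0 ∘ y = D.e0 ∘ y' → D.e1 ∘ y = D.e1 ∘ y' → y ∈ N := by
    intro y y' hy' a0 a1
    choose t ht using fun i => D.ker (y i - y' i)
      (by rw [map_sub, sub_eq_zero]; exact congrFun a0 i)
      (by rw [map_sub, sub_eq_zero]; exact congrFun a1 i)
    have : y = y' + D.u • t := by
      funext i
      simp [← ht i]
    rw [this]
    exact N.add_mem hy' (hu t)
  let lf : (Fin (r + 1) → V) → (Fin (r + 1) → V) → Fin (r + 1) → T :=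
    fun a b i => D.ι (a i) + (D.ι (b i) - D.ι (a i)) * D.s
  have l0 : ∀ a b, D.e0 ∘ lf a b = a := fun a b => by funext i; simp [lf, D.e0i, D.e0s]
  have l1 : ∀ a b, D.e1 ∘ lf a b = b := fun a b => by funext i; simp [lf, D.e1i, D.e1s]
  let W : Submodule V ((Fin (r + 1) → V) × (Fin (r + 1) → V)) :=
    { carrier := {p | ∃ y ∈ N, D.e0 ∘ y = p.1 ∧ D.e1 ∘ y = p.2}
      add_mem' := by
        rintro a b ⟨y, hy, a0, a1⟩ ⟨y', hy', b0, b1⟩
        refine ⟨y + y', N.add_mem hy hy', ?_, ?_⟩ <;> funext i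
        · simp [← a0, ← b0]
        · simp [← a1, ← b1]
      zero_mem' := ⟨0, N.zero_mem, by funext i; simp, by funext i; simp⟩
      smul_mem' := by
        rintro c a ⟨y, hy, a0, a1⟩
        refine ⟨D.iS c • y, N.smul_mem _ hy, ?_, ?_⟩ <;> funext i
        · simp [← a0, Subring.smul_def, D.e0i]
        · simp [← a1, Subring.smul_def, D.e1i] }
  obtain ⟨x0, x1, φ0, φ1, d0, d1, hW⟩ := split D.hw 0 W
    (by rintro y ⟨y', hy', a0, a1⟩; exact a1.symm.trans (h0 _ hy' a0))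
    (by rintro y ⟨y', hy', a0, a1⟩; exact a0.symm.trans (h1 _ hy' a1))
    (by
      rintro p ⟨y, hy, a0, a1⟩
      refine ⟨lf p.1 p.2, hs _ (hk _ y hy ?_ ?_), l0 _ _, l1 _ _⟩ <;> funext i
      · have := congrFun (l0 p.1 p.2) i
        simp only [Function.comp_apply] at this
        simpa [this, D.e0i] using (congrFun a0 i).symm
      · have := congrFun (l1 p.1 p.2) i
        simp only [Function.comp_apply] at this
        simpa [this, D.e1i] using (congrFun a1 i).symm)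
  set x := lf x0 x1
  have dd0 : D.e0 (lf φ0 φ1 ⬝ᵥ x) = 1 := by rw [RingHom.map_dotProduct, l0, l0, d0]
  have dd1 : D.e1 (lf φ0 φ1 ⬝ᵥ x) = 1 := by rw [RingHom.map_dotProduct, l1, l1, d1]
  obtain ⟨d, hd⟩ := (D.unit _ (dd0 ▸ isUnit_one) (dd1 ▸ isUnit_one)).exists_left_inv
  have d0' : D.e0 d = 1 := by simpa [dd0] using congrArg D.e0 hd
  have d1' : D.e1 d = 1 := by simpa [dd1] using congrArg D.e1 hd
  let ψ : (Fin (r + 1) → T) → T := fun y => d * (lf φ0 φ1 ⬝ᵥ y)
  have ψ0 : ∀ y, D.e0 (ψ y) = φ0 ⬝ᵥ (D.e0 ∘ y) := fun y => by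
    simp only [ψ, map_mul, d0', one_mul]; rw [RingHom.map_dotProduct, l0]
  have ψ1 : ∀ y, D.e1 (ψ y) = φ1 ⬝ᵥ (D.e1 ∘ y) := fun y => by
    simp only [ψ, map_mul, d1', one_mul]; rw [RingHom.map_dotProduct, l1]
  have ψs : ∀ (t : T) y, ψ (t • y) = t * ψ y := fun t y => by
    simp only [ψ, dotProduct_smul, smul_eq_mul]; ring
  have ψa : ∀ y y', ψ (y + y') = ψ y + ψ y' := fun y y' => by
    simp only [ψ, dotProduct_add]; ring
  have ψx : ψ x = 1 := hd
  have hE : ∀ y ∈ N, ψ y • x ∈ N := by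
    intro y hy
    obtain ⟨y', hy', a0, a1⟩ := hW (D.e0 ∘ y, D.e1 ∘ y) ⟨y, hy, rfl, rfl⟩
    refine hk _ y' hy' ?_ ?_ <;> funext i
    · have := congrFun (l0 x0 x1) i
      simp only [Function.comp_apply] at this
      simpa [ψ0, x, this] using (congrFun a0 i).symm
    · have := congrFun (l1 x0 x1) i
      simp only [Function.comp_apply] at this
      simpa [ψ1, x, this] using (congrFun a1 i).symm
  let E : N →ₗ[D.S] N :=
    { toFun := fun y => ⟨ψ y • x, hE y y.2⟩
      map_add' := fun y y' => Subtype.ext (by simp [ψa, add_smul])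
      map_smul' := fun c y => Subtype.ext (by simp [Subring.smul_def, ψs, mul_smul]) }
  have hx0 : x ≠ 0 := fun h => by simp [ψ, h] at ψx
  have hid : ∀ y ∈ N, ψ y • x = y := by
    rcases hi E (LinearMap.ext fun y => Subtype.ext (by simp [E, ψs, ψx])) with h | h
    · have := congrArg Subtype.val (LinearMap.congr_fun h ⟨_, hu x⟩)
      simp [E, ψs, ψx, hx0, D.u_ne] at this
    · exact fun y hy => congrArg Subtype.val (LinearMap.congr_fun h ⟨y, hy⟩)
  let I : Ideal V :=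
    { carrier := {a | ∃ y ∈ N, D.e0 (ψ y) = a}
      add_mem' := by
        rintro _ _ ⟨y, hy, rfl⟩ ⟨y', hy', rfl⟩
        exact ⟨y + y', N.add_mem hy hy', by rw [ψa, map_add]⟩
      zero_mem' := ⟨0, N.zero_mem, by simp [ψ]⟩
      smul_mem' := by
        rintro c _ ⟨y, hy, rfl⟩
        exact ⟨D.iS c • y, N.smul_mem _ hy, by simp [Subring.smul_def, ψs, D.e0i]⟩ }
  obtain ⟨g, hg⟩ := (IsPrincipalIdealRing.principal I).principal
  obtain ⟨y0, hy0, hg0⟩ : g ∈ I := hg ▸ Submodule.mem_span_singleton_self g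
  have k0 : ∀ y ∈ N, D.e0 (ψ y) = 0 → D.e1 (ψ y) = 0 := fun y hy z0 => by
    rw [ψ1, h0 _ hy, dotProduct_zero]
    rw [← hid _ hy]
    funext i
    simp [z0]
  have k1 : ∀ y ∈ N, D.e1 (ψ y) = 0 → D.e0 (ψ y) = 0 := fun y hy z0 => by
    rw [ψ0, h1 _ hy, dotProduct_zero]
    rw [← hid _ hy]
    funext i
    simp [z0]
  obtain ⟨i, τ, hτ, t1, ht1⟩ := D.normal (ψ y0) (k0 _ hy0) (k1 _ hy0)
  let f : N →ₗ[D.S] T :=
    { toFun := fun y => τ * ψ y
      map_add' := fun y y' => by simp [ψa, mul_add]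
      map_smul' := fun c y => by simp [Subring.smul_def, ψs]; ring }
  have hf : Function.Injective f := fun y y' h => Subtype.ext (by
    rw [← hid _ y.2, ← hid _ y'.2, hτ.mul_left_cancel h])
  refine .inr ⟨i, ⟨(LinearEquiv.ofInjective f hf).trans (LinearEquiv.ofEq _ _ ?_)⟩⟩
  obtain ⟨τ', hτ'⟩ := hτ.exists_right_inv
  refine le_antisymm ?_ fun t ht => ?_
  · rintro _ ⟨⟨y, hy⟩, rfl⟩
    have hyI : D.e0 (ψ y) ∈ I := ⟨y, hy, rfl⟩
    rw [hg] at hyI
    obtain ⟨a, ha⟩ := Submodule.mem_span_singleton.mp hyI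
    have hy' : y + D.iS (-a) • y0 ∈ N := N.add_mem hy (N.smul_mem _ hy0)
    have z0 : D.e0 (ψ (y + D.iS (-a) • y0)) = 0 := by
      rw [ψa, Subring.smul_def, ψs, map_add, ← ha, map_mul, hg0]
      simp [D.e0i]
    obtain ⟨t, ht⟩ := D.ker _ z0 (k0 _ hy' z0)
    rw [ψa, Subring.smul_def, ψs, coe_iS, map_neg] at ht
    refine ⟨D.iS a, τ * t + D.ι a * t1, ?_⟩
    change τ * ψ y = D.ι a * _ + _
    linear_combination τ * ht + D.ι a * ht1
  · obtain ⟨a, t, rfl⟩ := ht
    refine ⟨⟨a • y0 + D.u • (τ' * (t - a * t1)) • x, N.add_mem (N.smul_mem _ hy0) (hu _)⟩, ?_⟩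
    change τ * ψ _ = _
    rw [ψa, Subring.smul_def, ψs, ψs, ψs, ψx]
    linear_combination a * ht1 + D.u * (t - a * t1) * hτ'

variable {M : Type} [AddCommGroup M] [Module D.S M] [IsNoetherianRing T] [IsNoetherianRing D.S]
  [Module.Finite D.S M]

lemma indec_class {a b : D.S} (h : IsRegular M [a, b])
    (hi : ∀ e : M →ₗ[D.S] M, e ∘ₗ e = e → e = 0 ∨ e = LinearMap.id) :
    ∃ i, Nonempty (M ≃ₗ[D.S] D.Nt i) := by
  have hu : IsSMulRegular M D.uS :=
    reg_of_mcm D.dimS h (fun h => D.u_ne (congrArg Subtype.val h)) D.uS_m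
  have hz : IsSMulRegular M D.zS := reg_of_mcm D.dimS h D.primeS.ne_zero D.zS_m
  obtain ⟨ha, hb⟩ := (wreg_pair a b).mp h.1
  have ham : a ∈ maximalIdeal D.S := by
    by_contra hh
    have : IsUnit a := by simpa using hh
    exact h.2 (by simp [Ideal.span_singleton_eq_top.mpr this])
  have hbm : b ∈ maximalIdeal D.S := by
    by_contra hh
    have : IsUnit b := by simpa using hh
    exact h.2 (by simp [Ideal.span_singleton_eq_top.mpr this])
  have soc : ∀ x : M, (∀ c ∈ maximalIdeal D.S, ∃ y, c • x = D.uS • y) → ∃ y, x = D.uS • y := by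
    intro x hx
    obtain ⟨m1, h1⟩ := hx a ham
    obtain ⟨m2, h2⟩ := hx b hbm
    obtain ⟨m3, rfl⟩ := hb m1 m2 (hu (by
      change D.uS • b • m1 = D.uS • a • m2
      rw [smul_comm D.uS, ← h1, smul_comm D.uS, ← h2, smul_comm]))
    exact ⟨m3, ha (by change a • x = a • D.uS • m3; rw [h1, smul_comm])⟩
  have hzu : ∀ x y : M, D.zS • x = D.uS • y → ∃ c, x = D.uS • c := by
    intro x y hxy
    refine soc x fun c hc => soc _ fun c' hc' => ?_
    obtain ⟨p, q, hpq⟩ := D.m_sq hc' hc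
    exact ⟨p • y + q • x, by
      rw [smul_smul, hpq, add_smul, mul_comm D.zS, mul_smul, mul_smul, hxy, smul_add, smul_comm]⟩
  obtain ⟨r, j, hj, hF⟩ := D.exists_j hu hz hzu
  choose g hg using fun m : M => hF (D.uS • m) fun t => ⟨D.ut t • m, smul_comm _ _ _⟩
  let G : M →ₗ[D.S] (Fin r → T) :=
    { toFun := g
      map_add' := fun x y => hj (by rw [map_add, hg, hg, hg, smul_add])
      map_smul' := fun c x => hj (by rw [map_smul, hg, hg, smul_comm]; rfl) }
  have hG : ∀ m, j (G m) = D.uS • m := hg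
  have hGi : Function.Injective G := fun x y h => hu (by
    change D.uS • x = D.uS • y
    rw [← hG, ← hG, h])
  have hGj : ∀ y, G (j y) = D.u • y := fun y => hj (by rw [hG, ← map_smul]; rfl)
  let e := LinearEquiv.ofInjective G hGi
  have key : ∀ m, (∀ t : T, t • G m ∈ LinearMap.range G) → ∃ y, G m = D.u • y := by
    intro m hm
    obtain ⟨y, rfl⟩ := hF m fun t => by
      obtain ⟨m', hm'⟩ := hm t
      refine ⟨m', hGi ?_⟩
      rw [map_smul, map_smul, hm', Subring.smul_def, Subring.smul_def, smul_smul]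
      rfl
    exact ⟨y, hGj y⟩
  have key2 : ∀ (m : M) (t : T) (c : V), (∀ i, D.u ∣ (t - D.ι c) * G m i) →
      t • G m ∈ LinearMap.range G := by
    intro m t c hh
    choose y hy using hh
    refine ⟨D.iS c • m + j y, ?_⟩
    rw [map_add, map_smul, hGj]
    funext i
    simp only [Pi.add_apply, Pi.smul_apply, Subring.smul_def, coe_iS, smul_eq_mul]
    linear_combination -hy i
  have hx := D.lattice2 (LinearMap.range G) (fun y => ⟨_, hGj y⟩)
    (by
      rintro _ ⟨m, rfl⟩ h0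
      obtain ⟨y, hy⟩ := key m fun t => key2 m t (D.e1 t) fun i => D.ker _
        (by have : D.e0 (G m i) = 0 := congrFun h0 i
            simp [this]) (by simp [D.e1i])
      funext i
      simp [hy, D.e1u])
    (by
      rintro _ ⟨m, rfl⟩ h0
      obtain ⟨y, hy⟩ := key m fun t => key2 m t (D.e0 t) fun i => D.ker _ (by simp [D.e0i])
        (by have : D.e1 (G m i) = 0 := congrFun h0 i
            simp [this])
      funext i
      simp [hy, D.e0u])
    (by
      rintro y ⟨m, hm⟩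
      obtain ⟨c, hc⟩ := hzu (j y) m (by rw [← hG, hm, ← map_smul]; rfl)
      exact ⟨c, hj (by rw [hG, hc])⟩)
    (by
      intro f hf
      rcases hi (e.symm.toLinearMap ∘ₗ f ∘ₗ e.toLinearMap) (LinearMap.ext fun x => by
        simpa using LinearMap.congr_fun hf (e x)) with h | h
      · left
        refine LinearMap.ext fun y => ?_
        simpa using LinearMap.congr_fun h (e.symm y)
      · right
        refine LinearMap.ext fun y => ?_
        simpa using LinearMap.congr_fun h (e.symm y))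
  rcases hx with hx | ⟨i, ⟨f⟩⟩
  · have := e.toEquiv.subsingleton
    exact absurd (Subsingleton.elim _ _) h.2
  · exact ⟨i, ⟨e.trans f⟩⟩

end Data

end Pool.Agent.H.MP_8741c9_al
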