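import Pool.Agent.H.MP_0a5ef7_al.B
import Pool.Agent.H.MP_8741c9_al.H

set_option linter.unusedSectionVars false

namespace Pool.Agent.H.MP_8741c9_al

open IsLocalRing RingTheory.Sequence TensorProduct

section Fac
variable {R : Type} [CommRing R] {M N M' N' : Type} [AddCommGroup M] [Module R M] [AddCommGroup N]
  [Module R N] [AddCommGroup M'] [Module R M'] [AddCommGroup N'] [Module R N']

variable (R M N) in
/-- Maps factoring through a finite free module. -/
def Fac : Submodule R (M →ₗ[R] N) :=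
  Submodule.span R {f | ∃ (α : M →ₗ[R] R) (b : N), f = α.smulRight b}

lemma Fac_comp {f : M →ₗ[R] N} (hf : f ∈ Fac R M N) (g : N →ₗ[R] N') (h : M' →ₗ[R] M) :
    g ∘ₗ f ∘ₗ h ∈ Fac R M' N' := by
  induction hf using Submodule.span_induction with
  | mem f hf =>
    obtain ⟨α, b, rfl⟩ := hf
    exact Submodule.subset_span ⟨α ∘ₗ h, g b, by ext; simp⟩
  | zero => simp
  | add f f' _ _ h1 h2 =>
    rw [LinearMap.add_comp, LinearMap.comp_add]
    exact Submodule.add_mem _ h1 h2
  | smul c f _ h1 =>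
    rw [LinearMap.smul_comp, LinearMap.comp_smul]
    exact Submodule.smul_mem _ _ h1

lemma Fac_lift (g : N →ₗ[R] N') (hg : Function.Surjective g) {f : M →ₗ[R] N'}
    (hf : f ∈ Fac R M N') : ∃ f' ∈ Fac R M N, g ∘ₗ f' = f := by
  induction hf using Submodule.span_induction with
  | mem f hf =>
    obtain ⟨α, b, rfl⟩ := hf
    obtain ⟨b, rfl⟩ := hg b
    exact ⟨α.smulRight b, Submodule.subset_span ⟨α, b, rfl⟩, by ext; simp⟩
  | zero => exact ⟨0, Submodule.zero_mem _, by simp⟩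
  | add f f' _ _ h1 h2 =>
    obtain ⟨a, ha, rfl⟩ := h1
    obtain ⟨b, hb, rfl⟩ := h2
    exact ⟨a + b, Submodule.add_mem _ ha hb, LinearMap.comp_add _ _ _⟩
  | smul c f _ h1 =>
    obtain ⟨a, ha, rfl⟩ := h1
    exact ⟨c • a, Submodule.smul_mem _ _ ha, LinearMap.comp_smul _ _ _⟩

lemma Fac_self (c : R) : c • LinearMap.id ∈ Fac R R R :=
  Submodule.smul_mem _ _ (Submodule.subset_span ⟨LinearMap.id, 1, by ext; simp⟩)

lemma Fac_pi {n : ℕ} {X : Fin n → Type} [∀ i, AddCommGroup (X i)] [∀ i, Module R (X i)] {c : R}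
    (h : ∀ i, c • LinearMap.id ∈ Fac R (X i) (X i)) :
    c • LinearMap.id ∈ Fac R (∀ i, X i) (∀ i, X i) := by
  convert Submodule.sum_mem _ fun i (_ : i ∈ Finset.univ) =>
    Fac_comp (h i) (LinearMap.single R X i) (LinearMap.proj i) using 1
  refine LinearMap.ext fun x => ?_
  simp only [LinearMap.sum_apply, LinearMap.comp_apply, LinearMap.smul_apply, LinearMap.id_apply,
    LinearMap.single_apply, LinearMap.proj_apply]
  exact (Finset.univ_sum_single (c • x)).symm

lemma Fac_free {n : ℕ} (g : (Fin n → R) →ₗ[R] N) (h : M →ₗ[R] (Fin n → R)) :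
    g ∘ₗ h ∈ Fac R M N := by
  simpa using Fac_comp (Fac_pi (n := n) fun _ => Fac_self (1 : R)) g h

lemma Fac_retract {c : R} (h : c • LinearMap.id ∈ Fac R N N) (s : M →ₗ[R] N) (p : N →ₗ[R] M)
    (hs : p ∘ₗ s = LinearMap.id) : c • LinearMap.id ∈ Fac R M M := by
  simpa [LinearMap.smul_comp, LinearMap.comp_smul, hs] using Fac_comp h p s

lemma Fac_ext {c d : R} (f : M' →ₗ[R] M) (g : M →ₗ[R] N) (hf : Function.Injective f)
    (hg : Function.Surjective g) (he : Function.Exact f g)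
    (h1 : c • LinearMap.id ∈ Fac R M' M') (h2 : d • LinearMap.id ∈ Fac R N N) :
    (c * d) • LinearMap.id ∈ Fac R M M := by
  obtain ⟨φ, hφ, e⟩ := Fac_lift g hg h2
  let ψ : M →ₗ[R] M' := (LinearEquiv.ofInjective f hf).symm.toLinearMap ∘ₗ
    (d • LinearMap.id - φ ∘ₗ g).codRestrict (LinearMap.range f) fun m => (he _).mp (by
      have := LinearMap.congr_fun e (g m)
      simp only [LinearMap.comp_apply] at this
      simp [this])
  have hψ : ∀ m, f (ψ m) = d • m - φ (g m) := fun m =>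
    congrArg Subtype.val ((LinearEquiv.ofInjective f hf).apply_symm_apply _)
  convert Submodule.add_mem _ (Fac_comp h1 f ψ)
    (Submodule.smul_mem _ c (Fac_comp hφ LinearMap.id g)) using 1
  ext m
  simp [hψ, smul_sub, mul_smul]

lemma Fac_syz {c : R} {n : ℕ} (π : (Fin n → R) →ₗ[R] M) (hπ : Function.Surjective π)
    (h : c • LinearMap.id ∈ Fac R M M) :
    c • LinearMap.id ∈ Fac R (LinearMap.ker π) (LinearMap.ker π) := by
  obtain ⟨φ, -, e⟩ := Fac_lift π hπ h
  convert Fac_free ((c • LinearMap.id - φ ∘ₗ π).codRestrict (LinearMap.ker π) fun m => by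
      have := LinearMap.congr_fun e (π m)
      simp only [LinearMap.comp_apply] at this
      simp [this]) (LinearMap.ker π).subtype using 1
  ext m
  simp [LinearMap.mem_ker.mp m.2]

lemma Fac_loc [IsDomain R] [IsNoetherianRing R] [Module.Finite R M] [Module.IsTorsionFree R M]
    (z : R) [IsDomain (Localization.Away z)] [IsPrincipalIdealRing (Localization.Away z)] :
    ∃ a : ℕ, z ^ a • LinearMap.id ∈ Fac R M M := by
  obtain ⟨n, π, hπ⟩ := Module.Finite.exists_fin' R M
  have := Module.finitePresentation_of_finite R M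
  let P := Submonoid.powers z
  obtain ⟨σ, hσ⟩ := (LocalizedModule.map P π).exists_rightInverse_of_surjective
    (LinearMap.range_eq_top.mpr (LocalizedModule.map_surjective P π hπ))
  obtain ⟨l, s, hl⟩ := Module.FinitePresentation.exists_lift_of_isLocalizedModule P
    (LocalizedModule.mkLinearMap P (Fin n → R))
    (σ.restrictScalars R ∘ₗ LocalizedModule.mkLinearMap P M)
  obtain ⟨t, ht⟩ := Module.Finite.exists_smul_of_comp_eq_of_isLocalizedModule P
    (LocalizedModule.mkLinearMap P M) (π ∘ₗ l) (s • LinearMap.id) (LinearMap.ext fun m => by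
      have h1 := congrArg (LocalizedModule.map P π) (LinearMap.congr_fun hl m)
      have h2 := LinearMap.congr_fun hσ (LocalizedModule.mk m 1)
      simp only [LinearMap.comp_apply, LinearMap.id_apply] at h2
      simpa [Submonoid.smul_def, h2] using h1)
  obtain ⟨a, ha⟩ := (t * s).2
  refine ⟨a, ?_⟩
  rw [smul_smul, Submonoid.smul_def, Submonoid.smul_def, ← ha] at ht
  exact ht ▸ Submodule.smul_mem _ _ (Fac_free π l)

end Fac

lemma surj_descent {B S : Type} [CommRing B] [IsNoetherianRing B] [CommRing S] [IsLocalRing S]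
    [Algebra B S] [Module.FaithfullyFlat B S] {z : S} (hz : z ∈ maximalIdeal S)
    (hd : ∀ s : S, ∃ (b : B) (s' : S), s = algebraMap B S b + z * s')
    {M N : Type} [AddCommGroup M] [Module B M] [Module.Finite B M] [AddCommGroup N] [Module B N]
    [Module.Finite B N] (φ : S ⊗[B] M →ₗ[S] S ⊗[B] N) (hφ : Function.Surjective φ) :
    ∃ f : M →ₗ[B] N, Function.Surjective f := by
  have := Module.finitePresentation_of_finite B M
  obtain ⟨f, ψ, rfl⟩ : ∃ (f : M →ₗ[B] N) (ψ : S ⊗[B] M →ₗ[S] S ⊗[B] N),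
      φ = f.baseChange S + z • ψ := by
    refine (Module.FinitePresentation.isBaseChange_map B M N S).inductionOn φ
      (fun φ => ∃ (f : M →ₗ[B] N) (ψ : S ⊗[B] M →ₗ[S] S ⊗[B] N), φ = f.baseChange S + z • ψ)
      ⟨0, 0, by simp⟩ (fun f => ⟨f, 0, by simp⟩) ?_ ?_
    · rintro s _ ⟨f, ψ, rfl⟩
      obtain ⟨b, s', rfl⟩ := hd s
      refine ⟨b • f, s' • f.baseChange S + (algebraMap B S b + z * s') • ψ, ?_⟩
      rw [LinearMap.baseChange_smul, ← algebraMap_smul S b]
      module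
    · rintro _ _ ⟨f, ψ, rfl⟩ ⟨f', ψ', rfl⟩
      exact ⟨f + f', ψ + ψ', by rw [LinearMap.baseChange_add]; module⟩
  refine ⟨f, (Module.FaithfullyFlat.lTensor_surjective_iff_surjective B S f).mp ?_⟩
  change Function.Surjective (f.baseChange S)
  rw [← LinearMap.range_eq_top, eq_top_iff]
  refine Submodule.le_of_le_smul_of_le_jacobson_bot (I := maximalIdeal S) Module.Finite.fg_top
    (maximalIdeal_le_jacobson _) fun y _ => ?_
  obtain ⟨x, rfl⟩ := hφ y
  exact Submodule.add_mem_sup ⟨x, rfl⟩ (Submodule.smul_mem_smul hz trivial)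

namespace Data

variable {T V : Type} [CommRing T] [IsDomain T] [CommRing V] [IsDomain V]
  [IsDiscreteValuationRing V] (D : Data T V) [IsNoetherianRing T] [IsNoetherianRing D.S]

def Nl : List (Option (ℕ × ℕ)) → ModuleCat.{0} D.S
  | [] => ModuleCat.of _ PUnit
  | i :: l => ModuleCat.of _ (D.Nt i × Nl l)

lemma Nl_append (l l' : List (Option (ℕ × ℕ))) :
    Nonempty ((D.Nl l × D.Nl l') ≃ₗ[D.S] D.Nl (l ++ l')) := by
  induction l with
  | nil => exact ⟨LinearEquiv.uniqueProd (M := D.Nl l') (M₂ := PUnit)⟩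
  | cons i l ih =>
    obtain ⟨e⟩ := ih
    exact ⟨(LinearEquiv.prodAssoc D.S (D.Nt i) (D.Nl l) (D.Nl l')).trans
      ((LinearEquiv.refl _ _).prodCongr e)⟩

lemma all_class {a b : D.S} (ha : a ∈ maximalIdeal D.S) (hb : b ∈ maximalIdeal D.S) (n : ℕ) :
    ∀ (M : Type) [AddCommGroup M] [Module D.S M] [Module.Finite D.S M],
      Module.finrank D.S M = n → IsWeaklyRegular M [a, b] → ∃ l, Nonempty (M ≃ₗ[D.S] D.Nl l) := by
  induction n using Nat.strong_induction_on with
  | _ n ih =>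
  intro M _ _ _ hn h
  rcases subsingleton_or_nontrivial M with hM | hM
  · exact ⟨[], ⟨LinearEquiv.ofSubsingleton M PUnit⟩⟩
  obtain ⟨h1, h2⟩ := (wreg_pair a b).mp h
  have hr : IsRegular M [a, b] := reg_pair ha hb h1 h2
  by_cases hi : ∀ e : M →ₗ[D.S] M, e ∘ₗ e = e → e = 0 ∨ e = LinearMap.id
  · obtain ⟨i, ⟨e⟩⟩ := D.indec_class hr hi
    exact ⟨[i], ⟨e.trans (LinearEquiv.prodUnique (M := D.Nt i) (M₂ := PUnit)).symm⟩⟩
  push Not at hi
  obtain ⟨e, he, e0, e1⟩ := hi
  have he' : ∀ x, e (e x) = e x := LinearMap.congr_fun he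
  have : Module.IsTorsionFree D.S M := ⟨fun x hx => by
    by_cases hm : x ∈ maximalIdeal D.S
    · exact reg_of_mcm D.dimS hr hx.ne_zero hm
    · exact (notMem_maximalIdeal.mp hm).isSMulRegular M⟩
  have hc := LinearMap.IsIdempotentElem.isCompl he
  have : Nontrivial (LinearMap.range e) :=
    Submodule.nontrivial_iff_ne_bot.mpr (mt LinearMap.range_eq_bot.mp e0)
  have : Nontrivial (LinearMap.ker e) := Submodule.nontrivial_iff_ne_bot.mpr fun h =>
    e1 (LinearMap.ext fun m => LinearMap.ker_eq_bot.mp h (he' m))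
  have r1 := Module.finrank_pos (R := D.S) (M := LinearMap.range e)
  have r2 := Module.finrank_pos (R := D.S) (M := LinearMap.ker e)
  have r3 := (LinearMap.ker e).finrank_quotient_add_finrank
  rw [e.quotKerEquivRange.finrank_eq] at r3
  obtain ⟨l, ⟨f⟩⟩ := ih _ (by omega) (LinearMap.range e) rfl ((wreg_pair a b).mpr
    ⟨h1.submodule _, fun ⟨_, x, rfl⟩ y hxy => by
      obtain ⟨w, hw⟩ := h2 (e x) y (congrArg Subtype.val hxy)
      exact ⟨⟨e w, w, rfl⟩, Subtype.ext (by
        change e x = a • e w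
        rw [← map_smul, ← hw, he'])⟩⟩)
  obtain ⟨l', ⟨f'⟩⟩ := ih _ (by omega) (LinearMap.ker e) rfl ((wreg_pair a b).mpr
    ⟨h1.submodule _, fun x y hxy => by
      obtain ⟨w, hw⟩ := h2 x y (congrArg Subtype.val hxy)
      refine ⟨⟨w, h1 ?_⟩, Subtype.ext hw⟩
      change a • e w = a • (0 : M)
      rw [← map_smul, ← hw, smul_zero]
      exact x.2⟩)
  obtain ⟨g⟩ := D.Nl_append l l'
  exact ⟨l ++ l', ⟨((Submodule.prodEquivOfIsCompl _ _ hc).symm.trans (f.prodCongr f')).trans g⟩⟩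

variable {A : Type} [CommRing A] [IsDomain A] [UniqueFactorizationMonoid A] (N : Nag A D.S)

lemma countable : ∃ f : ℕ → ModuleCat.{0} N.B, ∀ (M : Type) [AddCommGroup M] [Module N.B M]
    [Module.Finite N.B M] (a b : N.B), a ∈ maximalIdeal N.B → b ∈ maximalIdeal N.B →
      IsWeaklyRegular M [a, b] → ∃ n, Nonempty (M ≃ₗ[N.B] f n) := by
  classical
  have := N.flat
  have : IsLocalHom (algebraMap N.B D.S) := ⟨N.unitB⟩
  have : Module.FaithfullyFlat N.B D.S := .of_flat_of_isLocalHom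
  obtain ⟨k, hk⟩ := exists_surjective_nat (List (Option (ℕ × ℕ)))
  let Q : ℕ → ModuleCat.{0} N.B → Prop := fun n M =>
    Module.Finite N.B M ∧ Nonempty (D.S ⊗[N.B] M ≃ₗ[D.S] D.Nl (k n))
  refine ⟨fun n => if h : ∃ M, Q n M then h.choose else ModuleCat.of _ PUnit, ?_⟩
  intro M _ _ _ a b ha hb h
  obtain ⟨l, ⟨e⟩⟩ := D.all_class (N.mem_m.mp ha) (N.mem_m.mp hb) _ (D.S ⊗[N.B] M) rfl
    (h.of_flat_of_isBaseChange (TensorProduct.isBaseChange N.B M D.S))
  obtain ⟨n, rfl⟩ := hk l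
  have hn : ∃ M, Q n M := ⟨ModuleCat.of _ M, inferInstance, ⟨e⟩⟩
  refine ⟨n, ?_⟩
  beta_reduce
  rw [dif_pos hn]
  obtain ⟨_, ⟨e'⟩⟩ := hn.choose_spec
  have hd : ∀ s : D.S, ∃ (b : N.B) (s' : D.S), s = algebraMap N.B D.S b + N.z * s' := by
    intro s
    obtain ⟨b, y, h⟩ := N.dens 1 s
    exact ⟨b, y, by rwa [pow_one] at h⟩
  obtain ⟨f, hf⟩ := surj_descent N.zm hd _ (e.trans e'.symm).surjective
  obtain ⟨g, hg⟩ := surj_descent N.zm hd _ (e'.trans e.symm).surjective
  have := IsNoetherian.injective_of_surjective_endomorphism (g ∘ₗ f) (hg.comp hf)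
  exact ⟨LinearEquiv.ofBijective f ⟨Function.Injective.of_comp this, hf⟩⟩

def Mi (i : ℕ) : Submodule N.B (N.B × N.B) where
  carrier := {p | D.z ^ i ∣ D.cB N p.2 + D.s * D.cB N p.1}
  add_mem' := fun {p q} hp hq => by
    have := dvd_add hp hq
    simp only [Set.mem_setOf_eq, Prod.fst_add, Prod.snd_add, map_add]
    convert this using 1
    ring
  zero_mem' := by simp
  smul_mem' := fun c p hp => by
    have := Dvd.dvd.mul_left hp (D.cB N c)
    simp only [Set.mem_setOf_eq, Prod.smul_fst, Prod.smul_snd, smul_eq_mul, map_mul]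
    convert this using 1
    ring

variable {N} (hz : N.z = D.zS) {uB : N.B} (hu : (uB : D.S) = D.uS) (i : ℕ)
include hz hu

lemma Mi_zu (x y : D.Mi N i) (h : uB • x = N.zB • y) : ∃ w, x = N.zB • w := by
  have h' : uB • x.1 = N.zB • y.1 := congrArg Subtype.val h
  obtain ⟨p, hp⟩ := (N.primeB.dvd_or_dvd ⟨_, congrArg Prod.fst h'⟩).resolve_left (D.zu_B hz hu)
  obtain ⟨q, hq⟩ := (N.primeB.dvd_or_dvd ⟨_, congrArg Prod.snd h'⟩).resolve_left (D.zu_B hz hu)
  have hx : x.1 = N.zB • (p, q) := Prod.ext hp hq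
  refine ⟨⟨(p, q), D.pz.pow_dvd_of_dvd_mul_left i D.zu ?_⟩, Subtype.ext hx⟩
  rw [hx, smul_comm] at h'
  have hy : D.z ^ i ∣ D.cB N y.1.2 + D.s * D.cB N y.1.1 := y.2
  rw [← smul_right_injective _ N.primeB.ne_zero h'] at hy
  have hcu : D.cB N uB = D.u := congrArg Subtype.val hu
  convert hy using 1
  simp only [Prod.smul_fst, Prod.smul_snd, smul_eq_mul, map_mul, hcu]
  ring

lemma Mi_not {a : ℕ} (h : N.zB ^ a • LinearMap.id ∈ Fac N.B (D.Mi N i) (D.Mi N i)) : i ≤ a := by
  have hcz := D.cB_z hz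
  have hcu : D.cB N uB = D.u := congrArg Subtype.val hu
  let m : D.Mi N i := ⟨(N.zB ^ i, 0), by simp [Mi, hcz]⟩
  let m' : D.Mi N i := ⟨(0, N.zB ^ i), by simp [Mi, hcz]⟩
  obtain ⟨v, y, hv⟩ := N.dens i D.vS
  have hv' : D.u * D.s = D.cB N v + D.z ^ i * y := by
    have := congrArg Subtype.val hv
    rw [hz] at this
    exact this
  let m2 : D.Mi N i := ⟨(uB, -v), ⟨y, by
    simp only [map_neg, hcu]; linear_combination hv'⟩⟩
  have key : ∀ f ∈ Fac N.B (D.Mi N i) (D.Mi N i), D.w ^ (i + i) ∣ D.e0 (D.cB N (f m).1.1) := by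
    intro f hf
    induction hf using Submodule.span_induction with
    | mem f hf =>
      obtain ⟨α, b, rfl⟩ := hf
      have b0 := map_dvd D.e0 b.2
      have b1 := map_dvd D.e1 b.2
      have he : ∀ x, D.e1 (D.cB N x) = D.e0 (D.cB N x) := fun x => x.1.2.symm
      simp only [map_pow, map_add, map_mul, D.e0i, D.e1i, D.e0s, D.e1s, he, zero_mul, add_zero,
        one_mul] at b0 b1
      have h1 : N.zB ^ i • m2 = uB • m - v • m' := by
        ext1
        ext1 <;> simp [m, m', m2, mul_comm]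
      have h2 := congrArg (D.cB N ∘ α) h1
      simp only [Function.comp_apply, map_smul, map_sub, smul_eq_mul, map_mul, map_pow, hcz,
        hcu] at h2
      have h3 := map_dvd D.e0 (D.pz.pow_dvd_of_dvd_mul_left i D.zu
        (b := D.cB N (α m) - D.s * D.cB N (α m'))
        ⟨D.cB N (α m2) - y * D.cB N (α m'), by
          linear_combination -h2 - D.cB N (α m') * hv'⟩)
      simp only [map_pow, map_sub, map_mul, D.e0i, D.e0s, zero_mul, sub_zero] at h3
      rw [pow_add]
      simpa using mul_dvd_mul h3 ((dvd_add_right b0).mp b1)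
    | zero => simp
    | add f f' _ _ h1 h2 => simpa using dvd_add h1 h2
    | smul c f _ h1 => simpa using h1.mul_left _
  have := key _ h
  simp only [LinearMap.smul_apply, LinearMap.id_apply, Submodule.coe_smul, Prod.smul_fst, m,
    smul_eq_mul, map_mul, map_pow, hcz, D.e0i, ← pow_add] at this
  have := (pow_dvd_pow_iff D.hw.ne_zero D.hw.not_isUnit).mp this
  omega

end Data

end Pool.Agent.H.MP_8741c9_al
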